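import Pool.Agent.H.MP_5aad23_co.Main

namespace Pool.Agent.H.MP_1ce666_co
open Finset Pool.Agent.H.MP_5aad23_co

/-- `Theta σ π` says `θ(σ) = π`: the one-line word of `π` is the concatenation of blocks
`m :: t`, each block is a cycle of `σ` written from its largest element `m`, and the largest
elements increase. -/
def Theta {n : ℕ} (σ π : Equiv.Perm (Fin n)) : Prop :=
  ∃ L : List (Fin n × List (Fin n)), L.flatMap (fun c => c.1 :: c.2) = List.ofFn π ∧
    (∀ c ∈ L, (∀ x ∈ c.2, x < c.1) ∧ List.IsChain (fun a b => σ a = b) (c.1 :: c.2 ++ [c.1])) ∧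
    L.Pairwise fun c d => c.1 < d.1

def Av321 {n : ℕ} (π : Equiv.Perm (Fin n)) : Prop :=
  ¬ ∃ i j k : Fin n, i < j ∧ j < k ∧ π j < π i ∧ π k < π j

/-- containment of the arrow pattern (12; 1 → 3) -/
def Arrow {n : ℕ} (π : Equiv.Perm (Fin n)) : Prop :=
  ∃ σ, Theta σ π ∧ ∃ x₁ x₂ x₃ : Fin n, x₁ < x₂ ∧ x₂ < x₃ ∧ π.symm x₁ < π.symm x₂ ∧ σ x₁ = x₃

noncomputable def a (n : ℕ) : ℕ := Nat.card {π : Equiv.Perm (Fin n) // Av321 π ∧ ¬ Arrow π}

section
variable {α : Type} [LinearOrder α]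

lemma lemA (σ : α → α) (L : List (α × List α))
    (h1 : ∀ c ∈ L, (∀ x ∈ c.2, x < c.1) ∧ List.IsChain (fun a b => σ a = b) (c.1 :: c.2 ++ [c.1]))
    (h2 : L.Pairwise fun c d => c.1 < d.1) : ∀ u x v,
    L.flatMap (fun c => c.1 :: c.2) = u ++ x :: v →
      (∃ y v', v = y :: v' ∧ σ x = y ∧ ∃ m ∈ u ++ [x], y < m) ∨
      (σ x ∈ u ++ [x] ∧ (∀ y ∈ u ++ [x], y ≤ σ x) ∧ ∀ y v', v = y :: v' → σ x < y) := by
  induction L with
  | nil => intro u x v h; simp at h
  | cons c L ih =>
    obtain ⟨m, t⟩ := c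
    intro u x v h
    obtain ⟨g1, g2⟩ := h1 (m, t) (by simp)
    obtain ⟨g3, g4⟩ := List.pairwise_cons.1 h2
    have hd : ∀ y v', L.flatMap (fun c => c.1 :: c.2) = y :: v' → m < y := by
      intro y v' e
      cases L with
      | nil => simp at e
      | cons d L =>
        simp only [List.flatMap_cons, List.cons_append, List.cons.injEq] at e
        exact e.1 ▸ g3 d (by simp)
    have hle : ∀ y ∈ m :: t, y ≤ m := fun y hy => by
      rcases List.mem_cons.1 hy with rfl | hy
      · exact le_rfl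
      · exact (g1 y hy).le
    have key : ∀ a', u = (m :: t) ++ a' → L.flatMap (fun c => c.1 :: c.2) = a' ++ x :: v →
        (∃ y v', v = y :: v' ∧ σ x = y ∧ ∃ m ∈ u ++ [x], y < m) ∨
        (σ x ∈ u ++ [x] ∧ (∀ y ∈ u ++ [x], y ≤ σ x) ∧ ∀ y v', v = y :: v' → σ x < y) := by
      rintro a' rfl e
      rcases ih (fun c hc => h1 c (by simp [hc])) g4 a' x v e with
        ⟨y, v', e1, e2, m', e3, e4⟩ | ⟨e1, e2, e3⟩
      · exact Or.inl ⟨y, v', e1, e2, m', by
          rw [List.append_assoc]; exact List.mem_append_right _ e3, e4⟩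
      · refine Or.inr ⟨by rw [List.append_assoc]; exact List.mem_append_right _ e1, ?_, e3⟩
        intro y hy
        rw [List.append_assoc] at hy
        rcases List.mem_append.1 hy with hy | hy
        · refine (hle y hy).trans ?_
          cases a' with
          | nil => exact (hd x v e).le.trans (e2 x (by simp))
          | cons z a' => exact (hd z _ e).le.trans (e2 z (by simp))
        · exact e2 y hy
    rw [List.flatMap_cons] at h
    rcases List.append_eq_append_iff.1 h with ⟨a', e1, e2⟩ | ⟨c', e1, e2⟩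
    · exact key a' e1 e2
    · cases c' with
      | nil => exact key [] (by simpa using e1.symm) (by simpa using e2.symm)
      | cons z c' =>
        simp only [List.cons_append, List.cons.injEq] at e2
        obtain ⟨rfl, rfl⟩ := e2
        dsimp only at e1 g1 g2
        have hm : m ∈ u ++ [x] := by
          cases u with
          | nil => simp at e1; simp [e1.1]
          | cons z u => simp at e1; simp [e1.1]
        rw [e1] at g2
        cases c' with
        | nil =>
          have e : σ x = m := by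
            rw [List.append_assoc] at g2
            exact (List.isChain_append_cons_cons.1 g2).2.1
          rw [e]
          exact Or.inr ⟨hm, e1 ▸ hle, fun y v' e => hd y v' e⟩
        | cons y c' =>
          have e : σ x = y := by
            rw [List.append_assoc] at g2
            exact (List.isChain_append_cons_cons.1 g2).2.1
          refine Or.inl ⟨y, _, rfl, e, m, hm, g1 y ?_⟩
          cases u with
          | nil => simp at e1; simp [e1.2]
          | cons z u => simp at e1; simp [e1.2]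

lemma exL (w : List α) (hw : w.Nodup) : ∃ L : List (α × List α),
    L.flatMap (fun c => c.1 :: c.2) = w ∧ (∀ c ∈ L, ∀ x ∈ c.2, x < c.1) ∧
    L.Pairwise fun c d => c.1 < d.1 := by
  induction w using List.reverseRecOn with
  | nil => exact ⟨[], rfl, by simp, by simp⟩
  | append_singleton w x ih =>
    obtain ⟨L, h1, h2, h3⟩ := ih (List.nodup_append.1 hw).1
    rcases List.eq_nil_or_concat L with rfl | ⟨L, ⟨m, t⟩, rfl⟩
    · exact ⟨[(x, [])], by simp [← h1], by simp, by simp⟩
    · rw [List.concat_eq_append] at h1 h2 h3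
      obtain ⟨g1, -, g2⟩ := List.pairwise_append.1 h3
      have hne : m ≠ x := (List.nodup_append.1 hw).2.2 m (by simp [← h1]) x (by simp)
      rcases lt_or_gt_of_ne hne with h | h
      · refine ⟨L ++ [(m, t)] ++ [(x, [])], by simp [← h1], ?_, ?_⟩
        · intro c hc
          rcases List.mem_append.1 hc with hc | hc
          · exact h2 c hc
          · simp at hc; simp [hc]
        · refine List.pairwise_append.2 ⟨h3, by simp, fun c hc d hd => ?_⟩
          obtain rfl : d = (x, []) := by simpa using hd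
          rcases List.mem_append.1 hc with hc | hc
          · exact (g2 c hc (m, t) (by simp)).trans h
          · obtain rfl : c = (m, t) := by simpa using hc
            exact h
      · refine ⟨L ++ [(m, t ++ [x])], by simp [← h1], ?_, ?_⟩
        · intro c hc
          rcases List.mem_append.1 hc with hc | hc
          · exact h2 c (by simp [hc])
          · obtain rfl : c = (m, t ++ [x]) := by simpa using hc
            intro y hy
            rcases List.mem_append.1 hy with hy | hy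
            · exact h2 (m, t) (by simp) y hy
            · obtain rfl : y = x := by simpa using hy
              exact h
        · refine List.pairwise_append.2 ⟨g1, by simp, fun c hc d hd => ?_⟩
          obtain rfl : d = (m, t ++ [x]) := by simpa using hd
          exact g2 c hc (m, t) (by simp)

lemma exS (L : List (α × List α)) (hn : (L.flatMap fun c => c.1 :: c.2).Nodup) :
    ∃ σ : Equiv.Perm α, (∀ x, x ∉ (L.flatMap fun c => c.1 :: c.2) → σ x = x) ∧
      ∀ c ∈ L, List.IsChain (fun a b => σ a = b) (c.1 :: c.2 ++ [c.1]) := by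
  induction L with
  | nil => exact ⟨1, fun _ _ => rfl, by simp⟩
  | cons c L ih =>
    rw [List.flatMap_cons] at hn ⊢
    obtain ⟨g1, g2, g3⟩ := List.nodup_append.1 hn
    obtain ⟨σ, h1, h2⟩ := ih g2
    refine ⟨(c.1 :: c.2).formPerm * σ, fun x hx => ?_, fun d hd => ?_⟩
    · rw [List.mem_append, not_or] at hx
      rw [Equiv.Perm.mul_apply, h1 x hx.2, List.formPerm_apply_of_notMem hx.1]
    · rcases List.mem_cons.1 hd with rfl | hd
      · rw [List.isChain_iff_getElem]
        intro i hi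
        have hi' : i < (d.1 :: d.2).length := by simp at hi ⊢; omega
        rw [List.getElem_append_left hi', Equiv.Perm.mul_apply,
          h1 _ fun h => g3 _ (List.getElem_mem hi') _ h rfl, List.formPerm_apply_getElem _ g1]
        by_cases h : i + 1 < (d.1 :: d.2).length
        · rw [List.getElem_append_left h]
          simp only [Nat.mod_eq_of_lt h]
        · have : i + 1 = (d.1 :: d.2).length := by omega
          rw [List.getElem_append_right this.ge]
          simp [this]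
      · refine (h2 d hd).imp_of_mem_imp fun a b _ hb e => ?_
        rw [Equiv.Perm.mul_apply, e, List.formPerm_apply_of_notMem]
        intro h
        refine g3 _ h b (List.mem_flatMap.2 ⟨d, hd, ?_⟩) rfl
        simp only [List.cons_append, List.mem_cons, List.mem_append, List.not_mem_nil] at hb ⊢
        tauto

end

lemma exT {n : ℕ} (π : Equiv.Perm (Fin n)) : ∃ σ, Theta σ π := by
  have hn : (List.ofFn π).Nodup := List.nodup_ofFn.2 π.injective
  obtain ⟨L, h1, h2, h3⟩ := exL _ hn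
  obtain ⟨σ, -, h4⟩ := exS L (h1 ▸ hn)
  exact ⟨σ, L, h1, fun c hc => ⟨h2 c hc, h4 c hc⟩, h3⟩

lemma lemB {n : ℕ} {σ π : Equiv.Perm (Fin n)} (h : Theta σ π) (i : Fin n) :
    (∃ j : Fin n, j.val = i + 1 ∧ σ (π i) = π j ∧ ∃ p ≤ i, π j < π p) ∨
    ((∃ p ≤ i, σ (π i) = π p) ∧ (∀ q ≤ i, π q ≤ σ (π i)) ∧
      ∀ j : Fin n, j.val = i + 1 → σ (π i) < π j) := by
  obtain ⟨L, h1, h2, h3⟩ := h
  have hi : i.val < (List.ofFn π).length := by simp
  have e0 : (List.ofFn π)[i.val] = π i := by simp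
  have e1 : List.ofFn π = (List.ofFn π).take i ++ π i :: (List.ofFn π).drop (i + 1) := by
    rw [← e0, ← List.drop_eq_getElem_cons hi, List.take_append_drop]
  have hm : ∀ y, y ∈ (List.ofFn π).take i ++ [π i] ↔ ∃ p ≤ i, π p = y := by
    intro y
    rw [← e0, List.take_append_getElem, List.mem_take_iff_getElem]
    constructor
    · rintro ⟨p, hp, rfl⟩
      simp only [List.length_ofFn, lt_min_iff] at hp
      exact ⟨⟨p, hp.2⟩, by rw [Fin.le_def]; simp only; omega, by simp⟩
    · rintro ⟨p, hp, rfl⟩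
      exact ⟨p, by rw [Fin.le_def] at hp; simp; omega, by simp⟩
  have hd : ∀ j : Fin n, j.val = i + 1 →
      (List.ofFn π).drop (i + 1) = π j :: (List.ofFn π).drop (i + 1 + 1) := by
    intro j hj
    rw [← hj, List.drop_eq_getElem_cons (by simp)]
    simp
  rcases lemA σ L h2 h3 _ _ _ (h1.trans e1) with ⟨y, v', g1, g2, m, g3, g4⟩ | ⟨g1, g2, g3⟩
  · have hl : i.val + 1 < n := by
      have := congrArg List.length g1
      simp at this; omega
    rw [hd ⟨_, hl⟩ rfl] at g1
    obtain ⟨p, hp, rfl⟩ := (hm _).1 g3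
    obtain rfl := (List.cons.inj g1).1
    exact Or.inl ⟨⟨_, hl⟩, rfl, g2, p, hp, g4⟩
  · obtain ⟨p, hp, e⟩ := (hm _).1 g1
    exact Or.inr ⟨⟨p, hp, e.symm⟩, fun q hq => g2 _ ((hm _).2 ⟨q, hq, rfl⟩),
      fun j hj => g3 _ _ (hd j hj)⟩

theorem theta_unique {n : ℕ} (π : Equiv.Perm (Fin n)) : ∃! σ, Theta σ π := by
  obtain ⟨σ, h⟩ := exT π
  refine ⟨σ, h, fun τ h' => Equiv.ext fun x => ?_⟩
  obtain ⟨i, rfl⟩ := π.surjective x
  rcases lemB h i with ⟨j, g1, g2, p, g3, g4⟩ | ⟨⟨p, g1, g2⟩, g3, g4⟩ <;>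
  rcases lemB h' i with ⟨j', k1, k2, p', k3, k4⟩ | ⟨⟨p', k1, k2⟩, k3, k4⟩
  · rw [g2, k2, Fin.ext (g1.trans k1.symm)]
  · exact absurd (g4.trans_le (k3 p g3)) (k4 j g1).not_gt
  · exact absurd (k4.trans_le (g3 p' k3)) (g4 j' k1).not_gt
  · exact le_antisymm (k2 ▸ g3 p' k1) (g2 ▸ k3 p g1)

def Has3142 {n : ℕ} (π : Equiv.Perm (Fin n)) : Prop :=
  ∃ p i j k : Fin n, p < i ∧ i < j ∧ j < k ∧ π i < π k ∧ π k < π p ∧ π p < π j

lemma arrow_iff {n : ℕ} (π : Equiv.Perm (Fin n)) (h : Av321 π) : Arrow π ↔ Has3142 π := by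
  have tri : ∀ i j : Fin n, i ≠ j → π i < π j ∨ π j < π i := fun i j hne =>
    lt_or_gt_of_ne fun e => hne (π.injective e)
  constructor
  · rintro ⟨σ, hσ, x₁, x₂, x₃, h1, h2, h3, h4⟩
    obtain ⟨i, rfl⟩ := π.surjective x₁
    obtain ⟨k, rfl⟩ := π.surjective x₂
    simp only [Equiv.symm_apply_apply] at h3
    subst h4
    have hl : i.val + 1 < n := by have := k.2; rw [Fin.lt_def] at h3; omega
    rcases lemB hσ i with ⟨j, g1, g2, p, g3, g4⟩ | ⟨⟨p, g1, g2⟩, g3, g4⟩
    · rw [g2] at h2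
      have hjk : j ≠ k := by rintro rfl; exact lt_irrefl _ h2
      refine absurd ⟨p, j, k, ?_, ?_, g4, h2⟩ h
      · rw [Fin.le_def] at g3; rw [Fin.lt_def]; omega
      · rw [Fin.lt_def] at h3 ⊢; have := Fin.val_ne_of_ne hjk; omega
    · have g5 := g4 ⟨_, hl⟩ rfl
      rw [g2] at h2 g5
      have hpi : p ≠ i := by rintro rfl; exact lt_asymm h1 h2
      have hjk : (⟨_, hl⟩ : Fin n) ≠ k := by rintro rfl; exact lt_asymm h2 g5
      refine ⟨p, i, ⟨_, hl⟩, k, lt_of_le_of_ne g1 hpi, Nat.lt_succ_self _, ?_, h1, h2, g5⟩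
      rw [Fin.lt_def] at h3 ⊢; have := Fin.val_ne_of_ne hjk; simp only at this ⊢; omega
  · rintro ⟨p, i, j, k, h1, h2, h3, h4, h5, h6⟩
    obtain ⟨σ, hσ⟩ := exT π
    refine ⟨σ, hσ, ?_⟩
    have key : ∀ d : ℕ, ∀ i : Fin n, j.val = i + 1 + d → p < i → π i < π k →
        ∃ x₁ x₂ x₃ : Fin n, x₁ < x₂ ∧ x₂ < x₃ ∧ π.symm x₁ < π.symm x₂ ∧ σ x₁ = x₃ := by
      intro d
      induction d using Nat.strong_induction_on with
      | _ d ih =>
        intro i e1 e2 e3
        have hik : i < k := by rw [Fin.lt_def] at h3 ⊢; omega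
        rcases lemB hσ i with ⟨j', g1, g2, q, g3, g4⟩ | ⟨-, g3, -⟩
        · have hq : q < j' := by rw [Fin.le_def] at g3; rw [Fin.lt_def]; omega
          have hjk : j' < k := by rw [Fin.lt_def] at h3 ⊢; omega
          have g5 : π j' < π k := (tri j' k hjk.ne).resolve_right fun g => h ⟨q, j', k, hq, hjk, g4, g⟩
          have hne : j' ≠ j := by rintro rfl; exact lt_asymm (h5.trans h6) g5
          have := Fin.val_ne_of_ne hne
          exact ih (d - 1) (by omega) j' (by omega) (by rw [Fin.lt_def] at e2 ⊢; omega) g5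
        · exact ⟨π i, π k, _, e3, h5.trans_le (g3 p e2.le), by simpa using hik, rfl⟩
    exact key (j - i - 1) i (by rw [Fin.lt_def] at h2; omega) h1 h4

/-! counting Av(321, 2413) -/

def AvQ (n : ℕ) (f : ℕ → ℕ) : Prop :=
  (¬ ∃ i j k, i < j ∧ j < k ∧ k < n ∧ f j < f i ∧ f k < f j) ∧
  ¬ ∃ i j k l, i < j ∧ j < k ∧ k < l ∧ l < n ∧ f k < f i ∧ f i < f l ∧ f l < f j

def BadQ (n : ℕ) (f : ℕ → ℕ) (a : ℕ) : Prop :=
  (∃ i j, i < j ∧ j < n ∧ f j < f i ∧ a ≤ f j) ∨
  ∃ i j k, i < j ∧ j < k ∧ k < n ∧ f k < f i ∧ f i < a ∧ a ≤ f j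

open Classical in
noncomputable def ActQ (n : ℕ) (f : ℕ → ℕ) : Finset ℕ :=
  (range (n + 1)).filter fun a => ¬ BadQ n f a

open Classical in
noncomputable def chQ (n : ℕ) (f : ℕ → ℕ) : Finset (ℕ → ℕ) := (ActQ n f).image (app n f)

lemma up_lt' (a x : ℕ) : up a x < a ↔ x < a := by unfold up; split_ifs <;> omega
lemma lt_up' (a x : ℕ) : a < up a x ↔ a ≤ x := by unfold up; split_ifs <;> omega

lemma avQ_app (n : ℕ) (f : ℕ → ℕ) (a : ℕ) :
    AvQ (n + 1) (app n f a) ↔ AvQ n f ∧ ¬ BadQ n f a := by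
  constructor
  · rintro ⟨h, h'⟩
    refine ⟨⟨fun ⟨i, j, k, h1, h2, h3, h4⟩ => h ⟨i, j, k, h1, h2, by omega, ?_⟩,
      fun ⟨i, j, k, l, h1, h2, h3, h4, h5⟩ => h' ⟨i, j, k, l, h1, h2, h3, by omega, ?_⟩⟩, ?_⟩
    · rwa [app_lt _ _ _ i (by omega), app_lt _ _ _ j (by omega), app_lt _ _ _ k (by omega),
        up_lt, up_lt]
    · rwa [app_lt _ _ _ i (by omega), app_lt _ _ _ j (by omega), app_lt _ _ _ k (by omega),
        app_lt _ _ _ l (by omega), up_lt, up_lt, up_lt]
    · rintro (⟨i, j, h1, h2, h3⟩ | ⟨i, j, k, h1, h2, h3, h4⟩)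
      · refine h ⟨i, j, n, h1, h2, by omega, ?_⟩
        rwa [app_lt _ _ _ i (by omega), app_lt _ _ _ j (by omega), app_n, up_lt, lt_up']
      · refine h' ⟨i, j, k, n, h1, h2, h3, by omega, ?_⟩
        rwa [app_lt _ _ _ i (by omega), app_lt _ _ _ j (by omega), app_lt _ _ _ k (by omega),
          app_n, up_lt, lt_up', up_lt']
  · rintro ⟨⟨g1, g2⟩, g3⟩
    refine ⟨fun ⟨i, j, k, h1, h2, h3, h4⟩ => ?_, fun ⟨i, j, k, l, h1, h2, h3, h4, h5⟩ => ?_⟩
    · rw [app_lt _ _ _ i (by omega), app_lt _ _ _ j (by omega), up_lt] at h4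
      by_cases hk : k < n
      · rw [app_lt _ _ _ k hk, up_lt] at h4
        exact g1 ⟨i, j, k, h1, h2, hk, h4⟩
      · obtain rfl : k = n := by omega
        rw [app_n, lt_up'] at h4
        exact g3 (Or.inl ⟨i, j, h1, h2, h4⟩)
    · rw [app_lt _ _ _ i (by omega), app_lt _ _ _ j (by omega), app_lt _ _ _ k (by omega),
        up_lt] at h5
      by_cases hk : l < n
      · rw [app_lt _ _ _ l hk, up_lt, up_lt] at h5
        exact g2 ⟨i, j, k, l, h1, h2, h3, hk, h5⟩
      · obtain rfl : l = n := by omega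
        rw [app_n, lt_up', up_lt'] at h5
        exact g3 (Or.inr ⟨i, j, k, h1, h2, h3, h5⟩)

lemma act_top {n : ℕ} {f : ℕ → ℕ} (hf : IsP n f) :
    ActQ (n + 1) (app n f n) = insert (n + 1) (ActQ n f) := by
  have e : ∀ i, i < n → app n f n i = f i := fun i hi => by
    have := hf.lt i hi
    rw [app_lt _ _ _ _ hi]; unfold up; split_ifs <;> omega
  have hb := (hf.app le_rfl).lt
  ext b
  simp only [ActQ, mem_filter, mem_range, mem_insert]
  constructor
  · rintro ⟨h1, h2⟩
    by_cases hb : b = n + 1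
    · exact Or.inl hb
    refine Or.inr ⟨by omega, ?_⟩
    rintro (⟨i, j, g1, g2, g3⟩ | ⟨i, j, k, g1, g2, g3, g4⟩)
    · exact h2 (Or.inl ⟨i, j, g1, by omega, by rwa [e i (by omega), e j g2]⟩)
    · exact h2 (Or.inr ⟨i, j, k, g1, g2, by omega, by
        rwa [e i (by omega), e j (by omega), e k g3]⟩)
  · rintro (rfl | ⟨h1, h2⟩)
    · refine ⟨by omega, ?_⟩
      rintro (⟨i, j, g1, g2, g3, g4⟩ | ⟨i, j, k, g1, g2, g3, g4, g5, g6⟩)
      · have := hb j g2; omega
      · have := hb j (by omega); omega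
    · refine ⟨by omega, ?_⟩
      rintro (⟨i, j, g1, g2, g3⟩ | ⟨i, j, k, g1, g2, g3, g4⟩)
      · by_cases hj : j < n
        · exact h2 (Or.inl ⟨i, j, g1, hj, by rwa [e i (by omega), e j hj] at g3⟩)
        · obtain rfl : j = n := by omega
          have := hb i (by omega)
          rw [app_n] at g3; omega
      · by_cases hj : k < n
        · exact h2 (Or.inr ⟨i, j, k, g1, g2, hj, by
            rwa [e i (by omega), e j (by omega), e k hj] at g4⟩)
        · obtain rfl : k = n := by omega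
          have := hb i (by omega)
          rw [app_n] at g4; omega

lemma act_low {n : ℕ} {f : ℕ → ℕ} (hf : IsP n f) {a : ℕ} (ha : a < n) (h : ¬ BadQ n f a) :
    ActQ (n + 1) (app n f a) = {a + 1, n + 1} := by
  have hb := (hf.app ha.le).lt
  obtain ⟨i0, hi0, e0⟩ := hf.sur a ha
  ext b
  simp only [ActQ, mem_filter, mem_range, mem_insert, mem_singleton]
  constructor
  · rintro ⟨h1, h2⟩
    by_contra hc
    rcases le_or_gt b a with h3 | h3
    · refine h2 (Or.inl ⟨i0, n, hi0, by omega, ?_⟩)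
      rw [app_n, app_lt _ _ _ _ hi0, lt_up']; omega
    · obtain ⟨j, hj, e⟩ := hf.sur (b - 1) (by omega)
      rcases lt_trichotomy i0 j with h4 | rfl | h4
      · refine h2 (Or.inr ⟨i0, j, n, h4, hj, by omega, ?_⟩)
        rw [app_n, app_lt _ _ _ _ hi0, app_lt _ _ _ _ hj, e, e0]
        unfold up; split_ifs <;> omega
      · omega
      · exact h (Or.inl ⟨j, i0, h4, hi0, by omega⟩)
  · rintro (rfl | rfl)
    · refine ⟨by omega, ?_⟩
      rintro (⟨i, j, g1, g2, g3⟩ | ⟨i, j, k, g1, g2, g3, g4⟩)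
      · by_cases hj : j < n
        · rw [app_lt _ _ _ i (by omega), app_lt _ _ _ j hj, up_lt, Nat.succ_le_iff, lt_up'] at g3
          exact h (Or.inl ⟨i, j, g1, hj, g3⟩)
        · obtain rfl : j = n := by omega
          rw [app_n] at g3; omega
      · rw [app_lt _ _ _ i (by omega), app_lt _ _ _ j (by omega), Nat.succ_le_iff, lt_up'] at g4
        by_cases hk : k < n
        · rw [app_lt _ _ _ k hk, up_lt] at g4
          refine h (Or.inr ⟨i, j, k, g1, g2, hk, g4.1, ?_, g4.2.2⟩)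
          have := g4.2.1
          unfold up at this; split_ifs at this <;> omega
        · obtain rfl : k = n := by omega
          rw [app_n] at g4; omega
    · refine ⟨by omega, ?_⟩
      rintro (⟨i, j, g1, g2, g3, g4⟩ | ⟨i, j, k, g1, g2, g3, g4, g5, g6⟩)
      · have := hb j g2; omega
      · have := hb j (by omega); omega

lemma cntQ (m : ℕ) : ∀ n f d, IsP n f → n ∈ ActQ n f → #(ActQ n f) = d + 2 →
    cnt chQ m n f = Nat.fib (2 * m + 1) + d * Nat.fib (2 * m) := by
  induction m with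
  | zero => intros; simp [cnt]
  | succ m ih =>
    intro n f d hf hn hd
    classical
    rw [cnt, chQ, sum_image fun a _ b _ e => by simpa [app_n] using congrFun e n,
      ← add_sum_erase _ _ hn, ih (n + 1) _ (d + 1) (hf.app le_rfl) (by simp [act_top hf])
        (by rw [act_top hf, card_insert_of_notMem (by simp [ActQ]), hd]),
      sum_congr rfl (g := fun _ => Nat.fib (2 * m + 1))]
    · rw [sum_const, card_erase_of_mem hn, hd, show 2 * (m + 1) = 2 * m + 2 by ring,
        show 2 * m + 2 + 1 = (2 * m + 1) + 2 by ring, Nat.fib_add_two (n := 2 * m + 1),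
        show 2 * m + 1 + 1 = 2 * m + 2 by ring, Nat.fib_add_two]
      simp only [smul_eq_mul, show d + 2 - 1 = d + 1 by omega]
      ring
    · intro a ha
      obtain ⟨h1, h2⟩ := mem_erase.1 ha
      have h3 : a < n + 1 ∧ ¬ BadQ n f a := by simpa [ActQ] using h2
      have h4 : a < n := by omega
      rw [ih (n + 1) _ 0 (hf.app h4.le) (by simp [act_low hf h4 h3.2])
        (by rw [act_low hf h4 h3.2, card_pair (by omega)])]
      simp

lemma countQ (n : ℕ) : Nat.card {f // IsP (n + 1) f ∧ AvQ (n + 1) f} = Nat.fib (2 * n + 1) := by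
  classical
  have hz : IsP 1 fun _ => 0 := ⟨fun _ _ => rfl, fun _ _ => by omega, fun _ _ _ _ _ => by omega,
      fun a ha => ⟨0, by omega, by omega⟩⟩
  have e : ActQ 1 (fun _ => 0) = {0, 1} := by
    ext b
    simp only [ActQ, BadQ, mem_filter, mem_range, mem_insert, mem_singleton]
    exact ⟨fun h => by omega, fun h => ⟨by omega, fun h => h.elim (fun ⟨i, j, h⟩ => by omega)
      fun ⟨i, j, k, h⟩ => by omega⟩⟩
  rw [tree (fun n f => IsP (n + 1) f ∧ AvQ (n + 1) f) (fun n => chQ (n + 1)) (fun _ => 0) _ _ _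
      (fun m n => cnt chQ m (n + 1)) (fun _ _ _ => rfl) (fun _ _ _ _ => rfl),
      cntQ n _ _ 0 hz (by simp [e]) (by simp [e])]
  · simp
  · intro x
    constructor
    · rintro ⟨h, _⟩
      funext i
      by_cases hi : i = 0
      · have := h.lt 0 (by omega); rw [hi]; omega
      · exact h.out i (by omega)
    · rintro rfl
      exact ⟨hz, fun ⟨i, j, k, h⟩ => by omega, fun ⟨i, j, k, l, h⟩ => by omega⟩
  · intro n y
    simp only [chQ, mem_image, ActQ, mem_filter, mem_range]
    constructor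
    · rintro ⟨h1, h2⟩
      obtain ⟨f, a, hf, ha, rfl⟩ := h1.dec
      rw [avQ_app] at h2
      exact ⟨f, ⟨hf, h2.1⟩, a, ⟨by omega, h2.2⟩, rfl⟩
    · rintro ⟨f, ⟨hf, h2⟩, a, ⟨h3, h4⟩, rfl⟩
      exact ⟨hf.app (by omega), (avQ_app _ _ _).2 ⟨h2, h4⟩⟩
  · intro n x x' y hx hx' h1 h2
    obtain ⟨a, _, rfl⟩ := mem_image.1 h1
    obtain ⟨a', _, e⟩ := mem_image.1 h2
    exact app_inj hx.1 hx'.1 e.symm

theorem main (n : ℕ) (hn : 1 ≤ n) : a n = Nat.fib (2 * n - 1) := by
  obtain ⟨n, rfl⟩ := Nat.exists_eq_add_of_le' hn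
  rw [show 2 * (n + 1) - 1 = 2 * n + 1 by omega, ← countQ,
    ← card_perm (n + 1) (fun π => Av321 π.symm ∧ ¬ Has3142 π.symm), a]
  · refine Nat.card_congr (Equiv.subtypeEquiv (Equiv.inv _) fun π => ?_)
    exact and_congr_right fun h => not_congr (arrow_iff π h)
  · intro π
    refine and_congr (not_congr ⟨?_, ?_⟩) (not_congr ⟨?_, ?_⟩)
    · rintro ⟨i, j, k, h1, h2, h3, h4⟩
      refine ⟨π.symm k, π.symm j, π.symm i, h4, h3, (π.symm i).2, ?_⟩
      simp only [ext0_fin, Equiv.apply_symm_apply]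
      exact ⟨h2, h1⟩
    · rintro ⟨i, j, k, h1, h2, h3, h4⟩
      rw [ext0_lt _ i (by omega), ext0_lt _ j (by omega), ext0_lt _ k h3] at h4
      exact ⟨_, _, _, h4.2, h4.1, by simpa using h2, by simpa using h1⟩
    · rintro ⟨p, i, j, k, h1, h2, h3, h4, h5, h6⟩
      refine ⟨π.symm i, π.symm k, π.symm p, π.symm j, h4, h5, h6, (π.symm j).2, ?_⟩
      simp only [ext0_fin, Equiv.apply_symm_apply]
      exact ⟨h1, h2, h3⟩
    · rintro ⟨i, j, k, l, h1, h2, h3, h4, h5⟩
      rw [ext0_lt _ i (by omega), ext0_lt _ j (by omega), ext0_lt _ k (by omega),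
        ext0_lt _ l h4] at h5
      exact ⟨_, _, _, _, h5.1, h5.2.1, h5.2.2, by simpa using h1, by simpa using h2,
        by simpa using h3⟩

end Pool.Agent.H.MP_1ce666_co
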